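import Pool.Agent.MP_815c6c_an.W.Y.Y35C
import Pool.Agent.MP_815c6c_an.W.M.Q235
import Pool.Agent.MP_815c6c_an.W.M.Q240
import Pool.Agent.MP_815c6c_an.W.M.Q246
import Pool.Agent.MP_815c6c_an.W.M.Q253
import Pool.Agent.MP_815c6c_an.W.M.Q262
import Pool.Agent.MP_815c6c_an.W.M.Q272
import Pool.Agent.MP_815c6c_an.W.M.Q285
import Pool.Agent.MP_815c6c_an.W.M.Q3
import Pool.Agent.MP_815c6c_an.W.M.P33
import Pool.Agent.MP_815c6c_an.W.M.Q39
import Pool.Agent.MP_815c6c_an.W.M.Q5
import Pool.Agent.MP_815c6c_an.W.M.Q7

/-! The certificate for `2 < p ≤ 10`. -/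

set_option autoImplicit false

namespace Pool.Agent.MP_815c6c_an.W

theorem upTo10 (x : ℝ) (a : 2 < x) (b : x ≤ 10) : Br.Ct x := by
  rcases le_total x (47 / 20) with h | h
  · exact Y35.low x a h
  rcases le_total x (12 / 5) with g | g
  · exact Q235.cert x (by linarith) g
  clear h
  have h := g
  clear g
  rcases le_total x (123 / 50) with g | g
  · exact Q240.cert x (by linarith) g
  clear h
  have h := g
  clear g
  rcases le_total x (51 / 20) with g | g
  · exact Q246.cert x (by linarith) g
  clear h
  have h := g
  clear g
  rcases le_total x (131 / 50) with g | g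
  · exact Q253.cert x (by linarith) g
  clear h
  have h := g
  clear g
  rcases le_total x (68 / 25) with g | g
  · exact Q262.cert x (by linarith) g
  clear h
  have h := g
  clear g
  rcases le_total x (57 / 20) with g | g
  · exact Q272.cert x (by linarith) g
  clear h
  have h := g
  clear g
  rcases le_total x (3) with g | g
  · exact Q285.cert x (by linarith) g
  clear h
  have h := g
  clear g
  rcases le_total x (33 / 10) with g | g
  · exact Q3.cert x (by linarith) g
  clear h
  have h := g
  clear g
  rcases le_total x (39 / 10) with g | g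
  · exact P33.cert x (by linarith) g
  clear h
  have h := g
  clear g
  rcases le_total x (5) with g | g
  · exact Q39.cert x (by linarith) g
  clear h
  have h := g
  clear g
  rcases le_total x (7) with g | g
  · exact Q5.cert x (by linarith) g
  clear h
  have h := g
  clear g
  exact Q7.cert x h b

end Pool.Agent.MP_815c6c_an.W
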