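import Pool.Agent.MP_815c6c_an.W.Br4

/-! Data of the piece `33/10 ≤ p ≤ 39/10`. -/

set_option autoImplicit false

namespace Pool.Agent.MP_815c6c_an.W.P33

open AA Br

def pc : Pc := ⟨⟨178601920036864, .negSucc 6459630813183, .negSucc 48103633715199, 18004502904832, 15049565405184, .negSucc 3023656976383⟩,
  ⟨.negSucc 66314295050239, .negSucc 18622978195455, 245947007238144, 14843406974976, .negSucc 128436702019583, .negSucc 39857296506879⟩,
  ⟨.negSucc 714682558054399, 71262097375232, 3161095929856, .negSucc 262027364794367, 140050293587968, 135171210739712⟩,
  ⟨.negSucc 524604485402623, 229797930205184, .negSucc 964821453373439, .negSucc 498628523196415, 563843306618880, 480142983954432⟩,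
  false,
  ⟨0, 0, 0, 0, 0, 0⟩,
  ⟨0, 0, 0, 0, 0, 0⟩,
  29, 20, 204069358115226, 147950284633539, 195713069744128, 246840360435712, 1085217976614912,
  [(1620101282578997, 70879079530096),
    (1424535312572134, 75103490310349),
    (1252870993504751, 79570953078789),
    (1101999209311833, 84300417943133),
    (968409999212544, 89347872329481),
    (852396288191524, 94628750097041),
    (749153078693747, 100289868569175),
    (657955766809848, 106322860941372),
    (580685239283289, 112470424664986),
    (510573387258492, 119176046290190),
    (448653156733917, 126315211768640),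
    (392822682468917, 134098287261199)]⟩

theorem ok : pc.Ok := Pc.ok_ok (by decide +kernel)

end Pool.Agent.MP_815c6c_an.W.P33
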