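import Pool.Agent.MP_815c6c_an.W.Br4

/-! Data of the piece `47/20 ≤ p ≤ 12/5`. -/

set_option autoImplicit false

namespace Pool.Agent.MP_815c6c_an.W.Q235

open AA Br

def pc : Pc := ⟨⟨539104294993920, .negSucc 5222680231935, .negSucc 21577915695103, 3642132267008, 4741643894784, 5566277615616⟩,
  ⟨.negSucc 194063802302463, 77859167141888, 159635344457728, .negSucc 115998476730367, .negSucc 62259845922815, 3504693313536⟩,
  ⟨.negSucc 559513979584511, .negSucc 273778395316223, .negSucc 568859828420607, 498697242673152, 372253405478912, .negSucc 213786292125695⟩,
  ⟨.negSucc 615108036263935, .negSucc 496429499940863, 674069347303424, 642252229574656, .negSucc 532232347320319, 42812234006528⟩,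
  true,
  ⟨.negSucc 3243421862985727, 1640746226548736, 2020971091329024, .negSucc 2942636713312255, .negSucc 1258528496943103, 1114698632134656⟩,
  ⟨.negSucc 3029841729290239, 2400921078202368, .negSucc 2540215457546239, .negSucc 3792078165245951, 1287390677172224, 1290345614671872⟩,
  23, 20, 161848111608627, 93062664174961, 203409651138560, 251788162760704, 3745211482112000,
  [(3804309339447653, 352566567947133),
    (3216121049622261, 361561795325084),
    (2719825766132870, 370767888683931),
    (2299158844282435, 380230837198507),
    (1942305681942261, 389973591930828),
    (1641871903521392, 399927732384819),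
    (1389814634763131, 410052281494273),
    (1171516566661566, 420699834626731),
    (994789499236174, 431146778706258),
    (837726103997218, 442401960294883),
    (707586584397914, 453748779743479),
    (599563105502609, 465170148766602)]⟩

theorem ok : pc.Ok := Pc.ok_ok (by decide +kernel)

end Pool.Agent.MP_815c6c_an.W.Q235
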