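import Pool.Agent.MP_815c6c_an.W.Br4

/-! Data of the piece `12/5 ≤ p ≤ 123/50`. -/

set_option autoImplicit false

namespace Pool.Agent.MP_815c6c_an.W.Q240

open AA Br

def pc : Pc := ⟨⟨539104294993920, .negSucc 9964324126719, .negSucc 22196390985727, 5291399708672, 4466765987840, 5085241278464⟩,
  ⟨.negSucc 201966542127103, 105553116266496, 174684909862912, .negSucc 133109626437631, .negSucc 67688684584959, 12850542149632⟩,
  ⟨.negSucc 582397565337599, .negSucc 283124244152319, .negSucc 635449001377791, 527765581332480, 379331511582720, .negSucc 225812200554495⟩,
  ⟨.negSucc 496154622033919, .negSucc 679223308058623, 571265010106368, 792060688859136, .negSucc 361876764491775, .negSucc 23845658427391⟩,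
  true,
  ⟨.negSucc 3319769201639423, 1783270421299200, 2524616136327168, .negSucc 3175801897877503, .negSucc 1480423687323647, 1098824433008640⟩,
  ⟨.negSucc 3225211201650687, 2757506442985472, .negSucc 1809658700365823, .negSucc 4202539599790079, 563499709235200, 1243685089968128⟩,
  23, 20, 161848111608627, 93062664174961, 202310139510784, 251238406946816, 3601175458873344,
  [(3650825985093454, 352527379587093),
    (3087623882333852, 361499960612294),
    (2610286465954327, 370722036095100),
    (2205676008898560, 380207405158009),
    (1867607100119308, 389815622822755),
    (1578727618938257, 399765731089127),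
    (1336364148993158, 409886178982433),
    (1126461544207939, 420529419042143),
    (956531172806835, 430972131310921),
    (805508234015967, 442222753690836),
    (680373713188775, 453564976810387),
    (576504678546032, 464981719306188)]⟩

theorem ok : pc.Ok := Pc.ok_ok (by decide +kernel)

end Pool.Agent.MP_815c6c_an.W.Q240
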