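import Pool.Agent.MP_815c6c_an.W.Br4

/-! Data of the piece `123/50 ≤ p ≤ 51/20`. -/

set_option autoImplicit false

namespace Pool.Agent.MP_815c6c_an.W.Q246

open AA Br

def pc : Pc := ⟨⟨539104294993920, .negSucc 15736760172543, .negSucc 22952305229823, 7215545057280, 3985729650688, 4741643894784⟩,
  ⟨.negSucc 198049531953151, 124107374985216, 201416786313216, .negSucc 152007482540031, .negSucc 72911364816895, 18760417148928⟩,
  ⟨.negSucc 661699841490943, .negSucc 260378097352703, .negSucc 728838770262015, 574563544989696, 419601124950016, .negSucc 257835476713471⟩,
  ⟨.negSucc 383798277570559, .negSucc 725471515901951, 373902672920576, 882358081290240, .negSucc 340436287750143, 23502061043712⟩,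
  true,
  ⟨.negSucc 3207344137699327, 1721560331190272, 3166249890611200, .negSucc 3471501806272511, .negSucc 1734135995432959, 1179569818173440⟩,
  ⟨.negSucc 3196417740898303, 2702393422643200, .negSucc 799276233916415, .negSucc 4561461426782207, 286903815372800, 1026462824005632⟩,
  23, 20, 161848111608627, 93062664174961, 200111116255232, 249589139505152, 3348287784484864,
  [(3270627521268514, 355864043598339),
    (2772118870186252, 364801350886911),
    (2353411853955607, 373873208426712),
    (1994207868838957, 383277865948992),
    (1692960862286359, 392810160730656),
    (1433170721738931, 402748177938741),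
    (1217116541903917, 412741566791194),
    (1031723516302915, 423101203953368),
    (873339762188645, 433814703401703),
    (743471347993378, 444417966018377),
    (632595389691815, 455312239749201),
    (536020417477232, 466772962825658)]⟩

theorem ok : pc.Ok := Pc.ok_ok (by decide +kernel)

end Pool.Agent.MP_815c6c_an.W.Q246
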