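import Pool.Agent.MP_815c6c_an.W.Br4

/-! Data of the piece `253/100 ≤ p ≤ 131/50`. -/

set_option autoImplicit false

namespace Pool.Agent.MP_815c6c_an.W.Q253

open AA Br

def pc : Pc := ⟨⟨539104294993920, .negSucc 8108898254847, .negSucc 39444979646463, 16286515986432, 7215545057280, 1511828488192⟩,
  ⟨.negSucc 21990232555519, 6871947673600, 333839217983488, .negSucc 73186242723839, .negSucc 161834367713279, .negSucc 19585050869759⟩,
  ⟨.negSucc 1185685851602943, 25013889531904, .negSucc 474301828431871, .negSucc 114486648242175, 461932322619392, 96138547953664⟩,
  ⟨.negSucc 458496348782591, 95451353186304, .negSucc 1787668467810303, .negSucc 25426206392319, 1119715153936384, 320919956357120⟩,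
  false,
  ⟨0, 0, 0, 0, 0, 0⟩,
  ⟨0, 0, 0, 0, 0, 0⟩,
  23, 20, 161848111608627, 93062664174961, 185817465094144, 236394999971840, 2251524935778304,
  [(1651714479403543, 400437287164573),
    (1432666517890093, 409075750991851),
    (1245143502353631, 417775835742159),
    (1079569198316144, 426813613239298),
    (936956347467866, 435980329268051),
    (815019559268887, 445196249249266),
    (707780969052071, 454715778329222),
    (615935156295235, 464298782989878),
    (532935149275226, 474487149200312),
    (462885688648037, 484622762698784),
    (402645482710773, 494867365381753),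
    (348804370285257, 505639654564822)]⟩

theorem ok : pc.Ok := Pc.ok_ok (by decide +kernel)

end Pool.Agent.MP_815c6c_an.W.Q253
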