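import Pool.Agent.MP_815c6c_an.W.Br4

/-! Data of the piece `131/50 ≤ p ≤ 68/25`. -/

set_option autoImplicit false

namespace Pool.Agent.MP_815c6c_an.W.Q262

open AA Br

def pc : Pc := ⟨⟨477737802268672, 755914244096, .negSucc 46729244180479, 24807731101696, 8177617731584, .negSucc 3435973836799⟩,
  ⟨.negSucc 310612034846719, .negSucc 57105885167615, 383660838617088, .negSucc 43499428773887, .negSucc 194269960732671, .negSucc 36833639530495⟩,
  ⟨.negSucc 1199154869043199, 98268851732480, .negSucc 554634896736255, .negSucc 428259779018751, 554566177259520, 309168925835264⟩,
  ⟨.negSucc 456228606050303, 477462924361728, .negSucc 1820585097166847, .negSucc 548587582783487, 1070924325453824, 675375017361408⟩,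
  false,
  ⟨0, 0, 0, 0, 0, 0⟩,
  ⟨0, 0, 0, 0, 0, 0⟩,
  13, 10, 182958734861926, 118923177660252, 177021372071936, 238044267413504, 1627552087015424,
  [(2285375275280227, 253579802779966),
    (1970283110747845, 265120759147955),
    (1700993357618570, 277071561837488),
    (1466416468086469, 289683435282062),
    (1264088098194669, 302879462750235),
    (1091028111065088, 316555711018172),
    (940273302261445, 330998349027947),
    (810671734259712, 346058849980814),
    (700847959270007, 361505990847508),
    (605231413743301, 377771053955615),
    (521266057203397, 395082277260397),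
    (450206985758563, 412839637902862)]⟩

theorem ok : pc.Ok := Pc.ok_ok (by decide +kernel)

end Pool.Agent.MP_815c6c_an.W.Q262
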