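import Pool.Agent.MP_815c6c_an.W.Br4

/-! Data of the piece `68/25 ≤ p ≤ 57/20`. -/

set_option autoImplicit false

namespace Pool.Agent.MP_815c6c_an.W.Q272

open AA Br

def pc : Pc := ⟨⟨446539159830528, .negSucc 3642132267007, .negSucc 52913997086719, 29892972380160, 10307921510400, .negSucc 6459630813183⟩,
  ⟨.negSucc 493749440348159, .negSucc 64733747085311, 422624781926400, .negSucc 26388279066623, .negSucc 204577882243071, .negSucc 48928267436031⟩,
  ⟨.negSucc 1138613010038783, 160528697655296, .negSucc 570028059525119, .negSucc 502682972323839, 558345748480000, 353218110423040⟩,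
  ⟨.negSucc 305595513044991, 617994254286848, .negSucc 1635660985270271, .negSucc 708566524624895, 934928480993280, 798726478102528⟩,
  false,
  ⟨0, 0, 0, 0, 0, 0⟩,
  ⟨0, 0, 0, 0, 0, 0⟩,
  7, 5, 197032483697459, 137922738588221, 175921860444160, 240793046482944, 1480492406800384,
  [(2585924069378341, 184531705499205),
    (2229897452996901, 195795873921680),
    (1922530819590437, 207763180503582),
    (1657356825619895, 220470561560522),
    (1429450737432284, 233910120670738),
    (1232416210269916, 248206901089326),
    (1064581545553335, 263175523707606),
    (916762082747539, 279394158551631),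
    (792004315016631, 296230185356870),
    (682343469978186, 314423870965948),
    (585965851490012, 334174584612126),
    (504917515342410, 354673766874668)]⟩

theorem ok : pc.Ok := Pc.ok_ok (by decide +kernel)

end Pool.Agent.MP_815c6c_an.W.Q272
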