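import Pool.Agent.MP_815c6c_an.W.Br4

/-! Data of the piece `57/20 ≤ p ≤ 3`. -/

set_option autoImplicit false

namespace Pool.Agent.MP_815c6c_an.W.Q285

open AA Br

def pc : Pc := ⟨⟨233302623518720, .negSucc 2061584302079, .negSucc 48722109005823, 17179869184000, 16217796509696, .negSucc 1305670057983⟩,
  ⟨.negSucc 127818226728959, .negSucc 29068338659327, 276595893862400, 10582799417344, .negSucc 150358215098367, .negSucc 44805098831871⟩,
  ⟨.negSucc 754471135084543, 40338332844032, .negSucc 91328184582143, .negSucc 235158049390591, 191040145326080, 120396523241472⟩,
  ⟨.negSucc 616826023182335, 248970664214528, .negSucc 1081438405394431, .negSucc 489420113313791, 607067857485824, 486465175814144⟩,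
  false,
  ⟨0, 0, 0, 0, 0, 0⟩,
  ⟨0, 0, 0, 0, 0, 0⟩,
  7, 5, 197032483697459, 137922738588221, 193514046488576, 247390116249600, 1305120302170112,
  [(2051881990132298, 97375732963810),
    (1784696935247287, 102963779743977),
    (1551514561225875, 108895408834790),
    (1350889640333898, 115096672091156),
    (1174566166893130, 121719854596558),
    (1020501476507648, 128761778626920),
    (889042651428572, 136064072762255),
    (771171242999808, 144029741420332),
    (672082105242186, 152175275725617),
    (584230466598620, 160945032120832),
    (509226561119379, 170039756613868),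
    (441226889265152, 180074232941599)]⟩

theorem ok : pc.Ok := Pc.ok_ok (by decide +kernel)

end Pool.Agent.MP_815c6c_an.W.Q285
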