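import Pool.Agent.MP_815c6c_an.W.Br4

/-! Data of the piece `39/10 ≤ p ≤ 5`. -/

set_option autoImplicit false

namespace Pool.Agent.MP_815c6c_an.W.Q39

open AA Br

def pc : Pc := ⟨⟨235158049390592, .negSucc 11751030521855, .negSucc 55800215109631, 24739011624960, 15668040695808, .negSucc 5634997092351⟩,
  ⟨.negSucc 161078453469183, 4466765987840, 291026983976960, .negSucc 21784074125311, .negSucc 121908351729663, .negSucc 16080357556223⟩,
  ⟨.negSucc 945030244073471, 81020263071744, 25082609008640, .negSucc 280787781943295, 85212151152640, 102117142429696⟩,
  ⟨.negSucc 473820792094719, 110088601731072, .negSucc 859955531874303, .negSucc 322431784845311, 399672476696576, 234814452006912⟩,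
  false,
  ⟨0, 0, 0, 0, 0, 0⟩,
  ⟨0, 0, 0, 0, 0, 0⟩,
  3, 2, 211106232532992, 158329674399744, 178120883699712, 238044267413504, 895277342916608,
  [(1395733406853803, 92920354710672),
    (1230724022315691, 98953585626340),
    (1083892673019904, 105443108856089),
    (956081777934336, 112270233144035),
    (843270494093312, 119544326295070),
    (742166557097984, 127427542293906),
    (654778111623168, 135664577264309),
    (576861187517099, 144536828345115),
    (507664438132736, 154072115435542),
    (448717878460416, 163880399549521),
    (393760286441472, 174942700323686),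
    (349175831767723, 185778223328624)]⟩

theorem ok : pc.Ok := Pc.ok_ok (by decide +kernel)

end Pool.Agent.MP_815c6c_an.W.Q39
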