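import Pool.Agent.MP_815c6c_an.W.Br4

/-! Data of the piece `3 ≤ p ≤ 33/10`. -/

set_option autoImplicit false

namespace Pool.Agent.MP_815c6c_an.W.Q3

open AA Br

def pc : Pc := ⟨⟨233302623518720, .negSucc 5222680231935, .negSucc 47897475284991, 20066087206912, 14774687498240, .negSucc 3298534883327⟩,
  ⟨.negSucc 119709328474111, .negSucc 15461882265599, 272953761595392, .negSucc 3504693313535, .negSucc 141424683122687, .negSucc 33328946216959⟩,
  ⟨.negSucc 769658139443199, 40888088657920, .negSucc 93389768884223, .negSucc 244160300843007, 189115999977472, 112699941847040⟩,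
  ⟨.negSucc 618200412717055, 246084446191616, .negSucc 1083981026033663, .negSucc 491412978139135, 603631883649024, 486671334244352⟩,
  false,
  ⟨0, 0, 0, 0, 0, 0⟩,
  ⟨0, 0, 0, 0, 0, 0⟩,
  7, 5, 197032483697459, 137922738588221, 191315023233024, 245191092994048, 1232277656829952,
  [(1842007326289335, 100843872706524),
    (1608768737808970, 106455602798414),
    (1404433146127507, 112400253696757),
    (1228178588696576, 118594048240188),
    (1071506080212115, 125247840626696),
    (937128634314167, 132144124575146),
    (817095240730917, 139591359458995),
    (713377535117605, 147380549982972),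
    (622102086118839, 155676301111952),
    (545041754133066, 164133396695743),
    (477329231520915, 173077712406224),
    (416600704417792, 182761271952701)]⟩

theorem ok : pc.Ok := Pc.ok_ok (by decide +kernel)

end Pool.Agent.MP_815c6c_an.W.Q3
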