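import Pool.Agent.MP_815c6c_an.W.Br4

/-! Data of the piece `5 ≤ p ≤ 7`. -/

set_option autoImplicit false

namespace Pool.Agent.MP_815c6c_an.W.Q5

open AA Br

def pc : Pc := ⟨⟨235158049390592, .negSucc 16080357556223, .negSucc 63221918597119, 23845658427392, 18416819765248, .negSucc 4466765987839⟩,
  ⟨.negSucc 206983063928831, 40681930227712, 323943613333504, 7559142440960, .negSucc 122114510159871, .negSucc 35115652612095⟩,
  ⟨.negSucc 1020071912669183, .negSucc 11957188952063, 170218143875072, .negSucc 259072427294719, .negSucc 51402168598527, 67413806678016⟩,
  ⟨.negSucc 412729177276415, .negSucc 197980812476415, .negSucc 779072707756031, .negSucc 322500504322047, 119159572660224, 138744623529984⟩,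
  false,
  ⟨0, 0, 0, 0, 0, 0⟩,
  ⟨0, 0, 0, 0, 0, 0⟩,
  8, 5, 225179981368525, 180143985094820, 168225279049728, 233096465088512, 717156459216896,
  [(1170663317962752, 84045485625664),
    (1037448080523264, 90363636470171),
    (920076851085312, 97113350393808),
    (816050535923712, 104362762366180),
    (723817973415936, 112148916060405),
    (641200150806528, 120609301940199),
    (568517149065216, 129636715748642),
    (504291671408640, 139304151185789),
    (446439087931392, 149871837323225),
    (396280758534144, 160981635607411),
    (350997508521984, 173140341355295),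
    (311594720428032, 185962502988408)]⟩

theorem ok : pc.Ok := Pc.ok_ok (by decide +kernel)

end Pool.Agent.MP_815c6c_an.W.Q5
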