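import Pool.Agent.MP_815c6c_an.W.Br4

/-! Data of the piece `7 ≤ p ≤ 10`. -/

set_option autoImplicit false

namespace Pool.Agent.MP_815c6c_an.W.Q7

open AA Br

def pc : Pc := ⟨⟨235158049390592, .negSucc 21921513078783, .negSucc 64596308131839, 24120536334336, 17660905521152, .negSucc 5772436045823⟩,
  ⟨.negSucc 187947768872959, 76622216560640, 337000313913344, 8933531975680, .negSucc 111944027602943, .negSucc 34428457844735⟩,
  ⟨.negSucc 1095938214985727, .negSucc 119846767427583, 183893319745536, .negSucc 279688270315519, 14499809591296, 142799072657408⟩,
  ⟨.negSucc 581298053709823, .negSucc 481517373489151, .negSucc 742239068225535, .negSucc 336175680192511, .negSucc 238112986890239, .negSucc 72636486909951⟩,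
  false,
  ⟨0, 0, 0, 0, 0, 0⟩,
  ⟨0, 0, 0, 0, 0, 0⟩,
  8, 5, 225179981368525, 180143985094820, 164926744166400, 226499395321856, 650910883643392,
  [(928312285200384, 91148266919635),
    (831664146087936, 97363128059979),
    (745556460699648, 103962116175094),
    (668741507481600, 110971430251771),
    (600198761938944, 118410241565252),
    (537045428600832, 126578667941191),
    (481851441414144, 135088225702409),
    (432780601196544, 144080676593908),
    (387374710259712, 153987121971587),
    (346300461613056, 164699766632140),
    (310384703569920, 175885643716268),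
    (278424409079808, 187731932739734)]⟩

theorem ok : pc.Ok := Pc.ok_ok (by decide +kernel)

end Pool.Agent.MP_815c6c_an.W.Q7
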