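import Pool.Agent.MP_815c6c_an.W.Br4

/-! Data of the piece `10 ≤ p ≤ 15`. -/

set_option autoImplicit false

namespace Pool.Agent.MP_815c6c_an.W.R10

open AA Br

def pc : Pc := ⟨⟨235158049390592, .negSucc 23158463660031, .negSucc 70918499991551, 20890720927744, 20890720927744, .negSucc 6184752906239⟩,
  ⟨.negSucc 109538845917183, 128093104635904, 323256418566144, 120327803764736, .negSucc 106515188940799, .negSucc 112631222370303⟩,
  ⟨.negSucc 824908598738943, .negSucc 124657130799103, 342704030482432, .negSucc 77446850281471, 138950781960192, 210968793579520⟩,
  ⟨.negSucc 318377335717887, .negSucc 622117422891007, .negSucc 456640922910719, .negSucc 204371723812863, .negSucc 262645840084991, .negSucc 75522704932863⟩,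
  false,
  ⟨0, 0, 0, 0, 0, 0⟩,
  ⟨0, 0, 0, 0, 0, 0⟩,
  8, 5, 225179981368525, 180143985094820, 162727720910848, 219902325555200, 599783592951808,
  [(744786282676224, 97318740936360),
    (675700339113984, 103172511073744),
    (612606648778752, 109422690686945),
    (555611603337216, 116025969673823),
    (503030096068608, 123156911256313),
    (457034576166912, 130451412074027),
    (414186190405632, 138388339130933),
    (374989441204224, 146893926843357),
    (340058654638080, 155770405668472),
    (308305890115584, 165207120025552),
    (280263105970176, 174935254900432),
    (254523186610176, 185346996598746)]⟩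

theorem ok : pc.Ok := Pc.ok_ok (by decide +kernel)

end Pool.Agent.MP_815c6c_an.W.R10
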