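import Pool.Agent.MP_815c6c_an.W.Br4

/-! Data of the piece `15 ≤ p ≤ 22`. -/

set_option autoImplicit false

namespace Pool.Agent.MP_815c6c_an.W.R15

open AA Br

def pc : Pc := ⟨⟨235158049390592, .negSucc 23502061043711, .negSucc 75866302316543, 20134806683648, 25082609008640, .negSucc 6597069766655⟩,
  ⟨.negSucc 51196010168319, 157092723818496, 314529045020672, 249108103168000, .negSucc 42262478192639, .negSucc 159841502887935⟩,
  ⟨.negSucc 723478651076607, .negSucc 50508815400959, 431627033378816, 65352222375936, 580885736849408, 450456170004480⟩,
  ⟨.negSucc 284498633687039, .negSucc 590781341499391, .negSucc 270686018863103, .negSucc 118334938939391, .negSucc 192758132244479, .negSucc 86861418594303⟩,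
  false,
  ⟨0, 0, 0, 0, 0, 0⟩,
  ⟨0, 0, 0, 0, 0, 0⟩,
  8, 5, 225179981368525, 180143985094820, 159429186027520, 216054034857984, 545632645283840,
  [(652279574691840, 99676172039651),
    (592771680829440, 105564770445344),
    (539604843233280, 111688272266682),
    (490209544765440, 118309787872047),
    (446437211504640, 125139438069746),
    (406567547043840, 132364083686806),
    (369826261893120, 140104627659832),
    (335223639244800, 148612110082083),
    (304657937203200, 157385893373664),
    (277151927500800, 166580146894106),
    (253205151744000, 175860662506559),
    (229682986352640, 186456178009540)]⟩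

theorem ok : pc.Ok := Pc.ok_ok (by decide +kernel)

end Pool.Agent.MP_815c6c_an.W.R15
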