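import Pool.Agent.MP_815c6c_an.W.Br4

/-! Data of the piece `22 ≤ p ≤ 30`. -/

set_option autoImplicit false

namespace Pool.Agent.MP_815c6c_an.W.R22

open AA Br

def pc : Pc := ⟨⟨292607531941888, .negSucc 27006754357247, .negSucc 89816356093951, 35253091565568, 40681930227712, .negSucc 14774687498239⟩,
  ⟨.negSucc 283811438919679, 142936511610880, 426335633670144, 66795331387392, .negSucc 161422050852863, .negSucc 78134045048831⟩,
  ⟨.negSucc 375551940362239, 113249697660928, 150220776144896, 91465623535616, 239693534855168, 162727720910848⟩,
  ⟨117235427311616, .negSucc 28724741275647, .negSucc 138744623529983, .negSucc 37589553774591, .negSucc 126100239810559, .negSucc 4329327034367⟩,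
  false,
  ⟨0, 0, 0, 0, 0, 0⟩,
  ⟨0, 0, 0, 0, 0, 0⟩,
  8, 5, 225179981368525, 180143985094820, 161628209283072, 218802813927424, 714682558054400,
  [(880044775833600, 120336417290951),
    (798362173440000, 127579512272425),
    (724208241868800, 135263576036418),
    (657472566067200, 143341652207664),
    (596159496192000, 152013332593055),
    (541160531558400, 161104228140709),
    (491715035136000, 170637246021502),
    (444899052748800, 181194928920512),
    (403158073344000, 192228288675767),
    (367367238451200, 203255173379073),
    (331654103040000, 216117490042702),
    (300844213862400, 229138458936910)]⟩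

theorem ok : pc.Ok := Pc.ok_ok (by decide +kernel)

end Pool.Agent.MP_815c6c_an.W.R22
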